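import Mathlib

set_option autoImplicit false

namespace Pool.Agent.H.MP_0e9457_al

/-- the one-sided Thue-Morse sequence -/
def t (n : ℕ) : Bool := if h : n = 0 then false else xor (n % 2 = 1) (t (n / 2))
  decreasing_by omega

lemma t_zero : t 0 = false := by rw [t]; rfl

lemma t_even (n : ℕ) : t (2 * n) = t n := by
  rcases n.eq_zero_or_pos with rfl | h
  · rfl
  · rw [t, dif_neg (by omega), show 2 * n / 2 = n by omega]
    simp

lemma t_odd (n : ℕ) : t (2 * n + 1) = !t n := by
  rw [t, dif_neg (by omega), show (2 * n + 1) / 2 = n by omega]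
  simp

lemma t_add (k : ℕ) : ∀ a b, b < 2 ^ k → t (a * 2 ^ k + b) = xor (t a) (t b) := by
  induction k with
  | zero => intro a b h; obtain rfl : b = 0 := by omega
            simp [t_zero]
  | succ k ih =>
    intro a b h
    obtain ⟨c, rfl | rfl⟩ := b.even_or_odd'
    · rw [show a * 2 ^ (k + 1) + 2 * c = 2 * (a * 2 ^ k + c) by ring, t_even, t_even,
        ih a c (by omega)]
    · rw [show a * 2 ^ (k + 1) + (2 * c + 1) = 2 * (a * 2 ^ k + c) + 1 by ring, t_odd, t_odd,
        ih a c (by omega)]
      simp

/-- type of the edge from m to m+1 -/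
def p (m : ℕ) : Bool := t m == t (m + 1)

lemma p_even (m : ℕ) : p (2 * m) = false := by simp [p, t_even, t_odd]

lemma p_odd (m : ℕ) : p (2 * m + 1) = !p m := by
  rw [p, show 2 * m + 1 + 1 = 2 * (m + 1) by ring, t_even, t_odd, p]
  cases t m <;> cases t (m + 1) <;> rfl

abbrev L := Fin 5

def tb (l : L) (o q : Bool) : Bool := ![!o, o && q, o && !q, o, false] l

/-- letter l swaps m and m+1 -/
def on (l : L) (m : ℕ) : Bool := tb l (m % 2 = 1) (p m)

def g (l : L) (m : ℕ) : ℕ := if on l m then m + 1 else if m ≠ 0 ∧ on l (m - 1) then m - 1 else m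

def cons (x : Bool) (q : ℕ) : ℕ := 2 * q + if xor x (q % 2 = 1) then 1 else 0

def kp (m : ℕ) : Bool := m % 4 = 1 ∨ m % 4 = 2

lemma cons_kp (m : ℕ) : cons (kp m) (m / 2) = m := by
  have : m % 4 = 0 ∨ m % 4 = 1 ∨ m % 4 = 2 ∨ m % 4 = 3 := by omega
  rcases this with h | h | h | h
  · have : m / 2 % 2 = 0 := by omega
    simp [cons, kp, h, this]; omega
  · have : m / 2 % 2 = 0 := by omega
    simp [cons, kp, h, this]; omega
  · have : m / 2 % 2 = 1 := by omega
    simp [cons, kp, h, this]; omega
  · have : m / 2 % 2 = 1 := by omega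
    simp [cons, kp, h, this]; omega

lemma cons_div (x : Bool) (q : ℕ) : cons x q / 2 = q := by
  unfold cons; split_ifs <;> omega

lemma kp_cons (x : Bool) (q : ℕ) : kp (cons x q) = x := by
  rcases Nat.mod_two_eq_zero_or_one q with h | h <;> cases x <;> simp [cons, kp, h] <;> omega

def root (l : L) (x : Bool) : Bool := if l = 0 then !x else x

def so (l : L) (x : Bool) : L := if x then ![4, 0, 4, 0, 4] l else ![4, 2, 1, 3, 4] l

lemma g0 (l : L) : g l 0 = if l = 0 then 1 else 0 := by
  fin_cases l <;> simp [g, on, tb]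

lemma g_odd (l : L) (m : ℕ) : g l (2 * m + 1) =
    if l = 0 then 2 * m else if tb l true (!p m) then 2 * m + 2 else 2 * m + 1 := by
  have h1 : (2 * m + 1) % 2 = 1 := by omega
  fin_cases l <;> simp [g, on, tb, h1, p_odd]

lemma g_even (l : L) (m : ℕ) : g l (2 * m + 2) =
    if l = 0 then 2 * m + 3 else if tb l true (!p m) then 2 * m + 1 else 2 * m + 2 := by
  have h1 : (2 * m + 1) % 2 = 1 := by omega
  have h2 : (2 * m + 2) % 2 = 0 := by omega
  have h3 : 2 * m + 2 - 1 = 2 * m + 1 := by omega
  fin_cases l <;> simp [g, on, tb, h1, h2, h3, p_odd]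

lemma g_cons (l : L) (x : Bool) (q : ℕ) : g l (cons x q) = cons (root l x) (g (so l x) q) := by
  obtain ⟨k, rfl | rfl⟩ := q.even_or_odd'
  · rcases k with _ | k
    · have h1 := g_odd l 0
      have h2 := p_even 0
      simp only [mul_zero, zero_add] at h1 h2
      cases x <;> fin_cases l <;> simp [cons, g0, h1, h2, root, so, tb] <;>
        simp [h2, tb] at h1 <;> exact h1
    · have e1 : cons false (2 * (k + 1)) = 2 * (2 * k + 1) + 2 := by simp [cons]; ring
      have e2 : cons true (2 * (k + 1)) = 2 * (2 * (k + 1)) + 1 := by simp [cons]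
      have e3 : 2 * (k + 1) = 2 * k + 2 := by ring
      cases x
      · rw [e1, g_even, p_odd, e3, g_even]
        cases p k <;> fin_cases l <;> simp [cons, root, so, tb, Nat.add_mod] <;> omega
      · rw [e2, g_odd, p_even, e3, g_even]
        cases p k <;> fin_cases l <;> simp [cons, root, so, tb, Nat.add_mod] <;> omega
  · have e1 : cons false (2 * k + 1) = 2 * (2 * k + 1) + 1 := by simp [cons]
    have e2 : cons true (2 * k + 1) = 2 * (2 * k) + 2 := by simp [cons]; ring
    cases x
    · rw [e1, g_odd, p_odd, g_odd]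
      cases p k <;> fin_cases l <;> simp [cons, root, so, tb, Nat.add_mod] <;> omega
    · rw [e2, g_even, p_even, g_odd]
      cases p k <;> fin_cases l <;> simp [cons, root, so, tb, Nat.add_mod] <;> omega

def mm (l l' : L) : L :=
  ![![4, 4, 4, 4, 0], ![4, 4, 3, 2, 1], ![4, 3, 4, 1, 2], ![4, 2, 1, 4, 3], ![0, 1, 2, 3, 4]] l l'

lemma g_e (m : ℕ) : g 4 m = m := by simp [g, on, tb]

lemma g_mul (l l' : L) (h : l = 0 ↔ l' = 0) (m : ℕ) : g l (g l' m) = g (mm l l') m := by
  rcases m with _ | m
  · have h1 := g_odd 0 0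
    simp only [mul_zero, zero_add, if_true] at h1
    fin_cases l <;> fin_cases l' <;> simp_all [g0, mm]
  · obtain ⟨k, rfl | rfl⟩ := m.even_or_odd'
    · rcases k with _ | k
      · have h0 := fun l => g_odd l 0
        have h1 := fun l => g_even l 0
        simp only [mul_zero, zero_add] at h0 h1
        cases hp : p 0 <;> fin_cases l <;> fin_cases l' <;> simp_all [g0, mm, tb]
      · have h0 := fun l => g_odd l (k + 1)
        have h1 := fun l => g_even l (k + 1)
        have h2 := g_even 0 k
        rw [show 2 * k + 2 = 2 * (k + 1) by ring] at h2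
        cases hp : p (k + 1) <;> fin_cases l <;> fin_cases l' <;> simp_all [mm, tb]
        all_goals omega
    · have h0 := fun l => g_odd l k
      have h1 := fun l => g_even l k
      have h2 := g_odd 0 (k + 1)
      rw [show 2 * (k + 1) + 1 = 2 * k + 3 by ring] at h2
      rw [show 2 * k + 1 + 1 = 2 * k + 2 by ring]
      cases hp : p k <;> fin_cases l <;> fin_cases l' <;> simp_all [mm, tb]
      all_goals omega

lemma g_g (l : L) (m : ℕ) : g l (g l m) = m := by
  rw [g_mul l l Iff.rfl, show mm l l = 4 by revert l; decide, g_e]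

def ev : List L → ℕ → ℕ
  | [], m => m
  | l :: w, m => g l (ev w m)

lemma ev_append (u v : List L) (m : ℕ) : ev (u ++ v) m = ev u (ev v m) := by
  induction u with
  | nil => rfl
  | cons l u ih => simp [ev, ih]

lemma ev_bij (w : List L) : Function.Bijective (ev w) := by
  induction w with
  | nil => exact Function.bijective_id
  | cons l w ih => exact (Function.Involutive.bijective (g_g l)).comp ih

def rt : List L → Bool → Bool
  | [], x => x
  | l :: w, x => root l (rt w x)

def secs : List L → Bool → List L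
  | [], _ => []
  | l :: w, x => so l (rt w x) :: secs w x

lemma ev_cons (w : List L) (x : Bool) (q : ℕ) : ev w (cons x q) = cons (rt w x) (ev (secs w x) q) := by
  induction w with
  | nil => rfl
  | cons l w ih => rw [ev, ih, g_cons]; rfl

lemma rt_true (w : List L) : rt w true = !rt w false := by
  induction w with
  | nil => rfl
  | cons l w ih =>
    simp only [rt, ih]
    generalize rt w false = z
    revert l z; decide

lemma ev_far (M : ℕ) : ∀ w : List L, (∀ m, M ≤ m → ev w m = m) → ∀ m, ev w m = m := by
  induction M using Nat.strong_induction_on with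
  | _ M ih =>
    intro w h m
    rcases lt_or_ge M 2 with hM | hM
    · rcases m with _ | m
      · by_contra hc
        exact hc ((ev_bij w).1 (h _ (by omega)))
      · exact h _ (by omega)
    · have key : ∀ x q, M - 1 ≤ q → rt w x = x ∧ ev (secs w x) q = q := fun x q hq => by
        have h1 := h (cons x q) (by unfold cons; omega)
        rw [ev_cons] at h1
        exact ⟨by simpa [kp_cons] using congrArg kp h1, by
          rw [← cons_div (rt w x) (ev _ q), h1, cons_div]⟩
      rw [← cons_kp m, ev_cons, (key _ _ le_rfl).1, ih (M - 1) (by omega) _ fun q hq => (key _ q hq).2]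

end Pool.Agent.H.MP_0e9457_al
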