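import Pool.Agent.H.MP_0e9457_al.A

set_option autoImplicit false

namespace Pool.Agent.H.MP_0e9457_al

open Real

def wl (l : L) : ℕ := ![2, 3, 2, 2, 0] l
def kl (l : L) : ℕ := ![0, 1, 1, 0, 0] l
def wt (w : List L) : ℕ := (w.map wl).sum
def kk (w : List L) : ℕ := (w.map kl).sum
def sw (w : List L) : ℕ := (w.map fun l => wl (so l true) + wl (so l false)).sum

lemma wt_cons (l : L) (w : List L) : wt (l :: w) = wl l + wt w := by simp [wt]
lemma kk_cons (l : L) (w : List L) : kk (l :: w) = kl l + kk w := by simp [kk]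

lemma wt_secs (w : List L) : wt (secs w true) + wt (secs w false) = sw w := by
  induction w with
  | nil => rfl
  | cons l w ih =>
    simp only [wt, sw, secs, List.map_cons, List.sum_cons, rt_true] at ih ⊢
    cases rt w false <;> simp only [Bool.not_true, Bool.not_false] <;> omega

lemma wt_le (w : List L) : wt w ≤ 3 * w.length := by
  induction w with
  | nil => simp [wt]
  | cons l w ih =>
    have : wl l ≤ 3 := by revert l; decide
    rw [wt_cons, List.length_cons]; omega

def Al : Bool → List L → Prop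
  | _, [] => True
  | true, l :: w => l = 0 ∧ Al false w
  | false, l :: w => (l = 1 ∨ l = 2 ∨ l = 3) ∧ Al true w

lemma reduce (w : List L) : ∃ s u, Al s u ∧ wt u ≤ wt w ∧ ev u = ev w := by
  induction w with
  | nil => exact ⟨true, [], trivial, le_rfl, rfl⟩
  | cons l w ih =>
    obtain ⟨s, u, h1, h2, h3⟩ := ih
    have hw := wt_cons l w
    have e : ev (l :: u) = ev (l :: w) := by ext m; simp [ev, h3]
    have hl : l = 4 ∨ l = 0 ∨ (l = 1 ∨ l = 2 ∨ l = 3) := by clear * -; revert l; decide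
    have hu := wt_cons l u
    rcases hl with rfl | hl
    · exact ⟨s, u, h1, by omega, by ext m; simp [ev, h3, g_e]⟩
    cases u with
    | nil =>
      rcases hl with rfl | hl
      · exact ⟨true, [0], ⟨rfl, trivial⟩, by omega, e⟩
      · exact ⟨false, [l], ⟨hl, trivial⟩, by omega, e⟩
    | cons l' r =>
      have hr := wt_cons l' r
      cases s
      · rcases hl with rfl | hl
        · exact ⟨true, 0 :: l' :: r, ⟨rfl, h1⟩, by omega, e⟩
        · have e2 : ev (mm l l' :: r) = ev (l :: w) := by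
            rw [← e]; ext m
            exact (g_mul l l' (by rcases hl with rfl | rfl | rfl <;>
              rcases h1.1 with rfl | rfl | rfl <;> decide) _).symm
          have := (by decide : ∀ l l' : L, (l = 1 ∨ l = 2 ∨ l = 3) → (l' = 1 ∨ l' = 2 ∨ l' = 3) →
            wl (mm l l') ≤ wl l + wl l' ∧
              (mm l l' = 4 ∨ (mm l l' = 1 ∨ mm l l' = 2 ∨ mm l l' = 3))) l l' hl h1.1
          rcases this with ⟨h4, h5 | h5⟩
          · exact ⟨true, r, h1.2, by omega, by rw [← e2, h5]; ext m; simp [ev, g_e]⟩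
          · exact ⟨false, mm l l' :: r, ⟨h5, h1.2⟩, by rw [wt_cons]; omega, e2⟩
      · rcases hl with rfl | hl
        · obtain ⟨rfl, h4⟩ := h1
          exact ⟨false, r, h4, by omega, by rw [← e]; ext m; simp [ev, g_g]⟩
        · exact ⟨false, l :: l' :: r, ⟨hl, h1⟩, by omega, e⟩

lemma contr (u : List L) : ∀ s, Al s u → sw u + kk u ≤ wt u + (if s then 0 else 2) ∧
    u.length ≤ wt u := by
  induction u with
  | nil => intro s _; simp [sw, kk]
  | cons l u ih =>
    intro s h
    have e1 : sw (l :: u) = wl (so l true) + wl (so l false) + sw u := by simp [sw]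
    rw [e1, wt_cons, kk_cons, List.length_cons]
    cases s
    · have := ih _ h.2
      rcases h.1 with rfl | rfl | rfl <;> simp [wl, kl, so] at this ⊢ <;> omega
    · have := ih _ h.2
      obtain rfl := h.1
      simp [wl, kl, so] at this ⊢
      omega

def Wd : ℕ → Bool → List (List L)
  | 0, _ => [[]]
  | n + 1, true => [] :: (Wd n false).map (0 :: ·)
  | n + 1, false => [] :: ((Wd n true).map (1 :: ·) ++ (Wd n true).map (2 :: ·) ++
      (Wd n true).map (3 :: ·))

lemma mem_Wd (n : ℕ) : ∀ s u, Al s u → u.length ≤ n → u ∈ Wd n s := by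
  induction n with
  | zero => intro s u _ h; simp [Wd, List.length_eq_zero_iff.1 (Nat.le_zero.1 h)]
  | succ n ih =>
    intro s u h hl
    cases u with
    | nil => cases s <;> simp [Wd]
    | cons l u =>
      have hl' : u.length ≤ n := by simpa using hl
      cases s
      · have := ih _ _ h.2 hl'
        rcases h.1 with rfl | rfl | rfl <;> simp [Wd, this]
      · simp [Wd, h.1, ih _ _ h.2 hl']

lemma sum_Wd {x : ℝ} (h0 : 0 ≤ x) (n : ℕ) :
    ∀ s, ((Wd n s).map fun w => x ^ kk w).sum ≤ (n + 1) * (1 + 2 * x) ^ n := by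
  induction n with
  | zero => intro s; simp [Wd, kk]
  | succ n ih =>
    intro s
    have e : ∀ (l : L) (s : Bool), (((Wd n s).map (l :: ·)).map fun w => x ^ kk w).sum =
        x ^ kl l * ((Wd n s).map fun w => x ^ kk w).sum := fun l s => by
      rw [List.map_map, ← List.sum_map_mul_left]
      simp [Function.comp_def, kk_cons, pow_add]
    have h1 : (1 : ℝ) ≤ (1 + 2 * x) ^ (n + 1) := one_le_pow₀ (by linarith)
    have h2 : (0 : ℝ) ≤ (n + 1) * (1 + 2 * x) ^ n := by positivity
    have k0 : kk [] = 0 := rfl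
    cases s
    · have := mul_le_mul_of_nonneg_left (ih true) (show 0 ≤ 1 + 2 * x by linarith)
      simp only [Wd, List.map_cons, List.sum_cons, List.map_append, List.sum_append, e, k0]
      simp only [kl, pow_succ] at *
      simp at *
      nlinarith
    · have := ih false
      have := mul_nonneg h0 h2
      simp only [Wd, List.map_cons, List.sum_cons, e, k0]
      simp only [kl, pow_succ] at *
      simp at *
      nlinarith

lemma count_le {x : ℝ} (h0 : 0 < x) (h1 : x ≤ 1) (K : ℕ) (l : List (List L)) :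
    ((l.filter fun w => kk w ≤ K).length : ℝ) * x ^ K ≤ (l.map fun w => x ^ kk w).sum := by
  induction l with
  | nil => simp
  | cons w l ih =>
    by_cases h : kk w ≤ K
    · have := pow_le_pow_of_le_one h0.le h1 h
      simp [h] at ih ⊢
      linarith
    · have := pow_pos h0 (kk w)
      simp [h] at ih ⊢
      linarith

open Classical in
noncomputable def B (n : ℕ) : Finset (ℕ → ℕ) :=
  (((Wd n true ++ Wd n false).filter fun w => wt w ≤ n).map ev).toFinset

lemma mem_B {n : ℕ} {f : ℕ → ℕ} : f ∈ B n ↔ ∃ w, wt w ≤ n ∧ ev w = f := by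
  simp only [B, List.mem_toFinset, List.mem_map, List.mem_filter, decide_eq_true_eq]
  constructor
  · rintro ⟨w, h, e⟩
    exact ⟨w, h.2, e⟩
  · rintro ⟨w, h, rfl⟩
    obtain ⟨s, u, h1, h2, h3⟩ := reduce w
    have := mem_Wd n s u h1 ((contr u s h1).2.trans (h2.trans h))
    exact ⟨u, ⟨by cases s <;> simp [this], h2.trans h⟩, h3⟩

def rc (y : Bool × (ℕ → ℕ) × (ℕ → ℕ)) (m : ℕ) : ℕ :=
  cons (xor y.1 (kp m)) (if kp m then y.2.1 (m / 2) else y.2.2 (m / 2))

lemma rc_ev (w : List L) : rc (rt w false, ev (secs w true), ev (secs w false)) = ev w := by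
  ext m
  conv_rhs => rw [← cons_kp m, ev_cons]
  cases h : kp m <;> simp [rc, h, rt_true]

lemma card_B (n K : ℕ) : (B n).card ≤
    ((Wd n true ++ Wd n false).filter fun w => kk w ≤ K).length +
      ∑ i ∈ Finset.range (n + 2 - K), 2 * ((B i).card * (B (n + 1 - K - i)).card) := by
  classical
  have : B n ⊆ (((Wd n true ++ Wd n false).filter fun w => kk w ≤ K).map ev).toFinset ∪
      (Finset.range (n + 2 - K)).biUnion fun i =>
        (Finset.univ ×ˢ B i ×ˢ B (n + 1 - K - i)).image rc := by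
    intro f hf
    obtain ⟨w, h, rfl⟩ := mem_B.1 hf
    obtain ⟨s, u, h1, h2, h3⟩ := reduce w
    obtain ⟨c1, c2⟩ := contr u s h1
    have := mem_Wd n s u h1 (c2.trans (h2.trans h))
    rw [← h3, Finset.mem_union]
    by_cases hk : kk u ≤ K
    · left
      simp only [List.mem_toFinset, List.mem_map, List.mem_filter, decide_eq_true_eq]
      exact ⟨u, ⟨by cases s <;> simp [this], hk⟩, rfl⟩
    · right
      have c3 := wt_secs u
      have c4 : (if s then 0 else 2) ≤ 2 := by split_ifs <;> omega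
      simp only [Finset.mem_biUnion, Finset.mem_range, Finset.mem_image, Finset.mem_product]
      exact ⟨wt (secs u true), by omega, _, ⟨Finset.mem_univ _, mem_B.2 ⟨_, le_rfl, rfl⟩,
        mem_B.2 ⟨_, by omega, rfl⟩⟩, rc_ev u⟩
  refine (Finset.card_le_card this).trans ((Finset.card_union_le _ _).trans (add_le_add ?_ ?_))
  · exact (List.toFinset_card_le _).trans (by rw [List.length_map])
  · refine Finset.card_biUnion_le.trans (Finset.sum_le_sum fun i _ => Finset.card_image_le.trans ?_)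
    simp

def P (s : ℝ) : Prop := ∃ C : ℝ, ∀ n : ℕ, ((B n).card : ℝ) ≤ C * exp (s * n)

lemma few {x : ℝ} (h0 : 0 < x) (h1 : x ≤ 1) (n K : ℕ) :
    (((Wd n true ++ Wd n false).filter fun w => kk w ≤ K).length : ℝ) * x ^ K ≤
      2 * ((n + 1) * exp (2 * x * n)) := by
  refine (count_le h0 h1 K _).trans ?_
  have h2 : (1 + 2 * x) ^ n ≤ exp (2 * x * n) := by
    rw [mul_comm (2 * x), exp_nat_mul]
    exact pow_le_pow_left₀ (by linarith) (by linarith [add_one_le_exp (2 * x)]) n
  have h3 := mul_le_mul_of_nonneg_left h2 (show (0 : ℝ) ≤ n + 1 by positivity)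
  rw [List.map_append, List.sum_append]
  linarith [sum_Wd h0.le n true, sum_Wd h0.le n false]

lemma lin_le {δ : ℝ} (h : 0 < δ) (n : ℕ) : (n : ℝ) + 2 ≤ (2 + 1 / δ) * exp (δ * n) := by
  have h1 := add_one_le_exp (δ * n)
  have h2 : 0 ≤ δ * n := by positivity
  have h3 : (n : ℝ) ≤ 1 / δ * exp (δ * n) := by
    rw [one_div, ← div_eq_inv_mul, le_div_iff₀ h]; linarith
  nlinarith

lemma P_three : P 3 := by
  refine ⟨2 * (2 + 1 / 1), fun n => ?_⟩
  have h1 := card_B n (n + 2)
  have h2 := few one_pos le_rfl n (n + 2)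
  have h3 := lin_le one_pos n
  rw [Nat.sub_self, Finset.range_zero, Finset.sum_empty, add_zero] at h1
  rw [one_pow, mul_one] at h2
  have h4 : exp (3 * n) = exp (1 * n) * exp (2 * 1 * n) := by rw [← exp_add]; ring_nf
  have h5 := exp_pos (2 * 1 * n)
  refine ((Nat.cast_le.2 h1).trans h2).trans ?_
  rw [h4]
  have h6 := mul_le_mul_of_nonneg_right h3 h5.le
  generalize exp (2 * 1 * (n : ℝ)) = a at *
  generalize exp (1 * (n : ℝ)) = b at *
  nlinarith

lemma P_step {τ s : ℝ} (h0 : 0 < τ) (hs : 0 < s) (h : P s) :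
    P (max τ (s * (1 - τ ^ 2 / 64))) := by
  obtain ⟨C, hC⟩ := h
  have C0 : 0 ≤ C := by
    have := hC 0
    simp only [Nat.cast_zero, mul_zero, exp_zero, mul_one] at this
    exact (Nat.cast_nonneg _).trans this
  have hδ : 0 < s * (τ ^ 2 / 64) := by positivity
  refine ⟨2 * (2 + 1 / (τ / 2)) + (2 + 1 / (s * (τ ^ 2 / 64))) * (2 * (C * C) * exp (2 * s)),
    fun n => ?_⟩
  set K := ⌊τ ^ 2 / 32 * n⌋₊ with hK
  have K1 : (K : ℝ) ≤ τ ^ 2 / 32 * n := Nat.floor_le (by positivity)
  have K2 : τ ^ 2 / 32 * n < K + 1 := Nat.lt_floor_add_one _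
  have h1 := (Nat.cast_le (α := ℝ)).2 (card_B n K)
  have x1 : exp (-(8 / τ)) ≤ 1 := exp_le_one_iff.2 (by simp; positivity)
  have x2 : exp (-(8 / τ)) ≤ τ / 8 := by
    rw [exp_neg, inv_le_comm₀ (exp_pos _) (by positivity), inv_div]
    linarith [add_one_le_exp (8 / τ)]
  have h2 := few (exp_pos _) x1 n K
  rw [← exp_nat_mul, ← le_div_iff₀ (exp_pos _), mul_div_assoc, mul_div_assoc, ← exp_sub] at h2
  have h3 : exp (2 * exp (-(8 / τ)) * n - K * -(8 / τ)) ≤ exp (τ / 2 * n) := by
    rw [exp_le_exp]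
    have a1 := mul_le_mul_of_nonneg_right x2 (Nat.cast_nonneg (α := ℝ) n)
    have a2 := mul_le_mul_of_nonneg_right K1 (show 0 ≤ 8 / τ by positivity)
    have a3 : τ ^ 2 / 32 * n * (8 / τ) = τ / 4 * n := by field_simp; ring
    linarith
  have h4 := lin_le (half_pos h0) n
  have h5 : exp (τ / 2 * n) * exp (τ / 2 * n) ≤ exp (max τ (s * (1 - τ ^ 2 / 64)) * n) := by
    rw [← exp_add, exp_le_exp]
    nlinarith [le_max_left τ (s * (1 - τ ^ 2 / 64)), Nat.cast_nonneg (α := ℝ) n]
  have h6 : ∀ i ∈ Finset.range (n + 2 - K),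
      ((2 * ((B i).card * (B (n + 1 - K - i)).card) : ℕ) : ℝ) ≤
        2 * (C * C) * exp (2 * s) * exp (s * (1 - τ ^ 2 / 32) * n) := fun i hi => by
    have hi := Finset.mem_range.1 hi
    have a1 := mul_le_mul (hC i) (hC (n + 1 - K - i)) (Nat.cast_nonneg _) (by positivity)
    have a2 : ((n + 1 - K - i : ℕ) : ℝ) = n + 1 - K - i := by
      rw [Nat.cast_sub (by omega), Nat.cast_sub (by omega)]; push_cast; ring
    have a3 : exp (s * i) * exp (s * (n + 1 - K - i : ℕ)) ≤
        exp (2 * s) * exp (s * (1 - τ ^ 2 / 32) * n) := by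
      rw [← exp_add, ← exp_add, exp_le_exp, a2]
      nlinarith
    push_cast
    nlinarith [mul_le_mul_of_nonneg_left a3 (mul_nonneg C0 C0)]
  have h7 := Finset.sum_le_card_nsmul _ _ _ h6
  rw [Finset.card_range, nsmul_eq_mul, ← Nat.cast_sum] at h7
  have h8 : ((n + 2 - K : ℕ) : ℝ) ≤ n + 2 := by exact_mod_cast Nat.sub_le _ _
  have h9 := h8.trans (lin_le hδ n)
  have h10 : exp (s * (τ ^ 2 / 64) * n) * exp (s * (1 - τ ^ 2 / 32) * n) ≤
      exp (max τ (s * (1 - τ ^ 2 / 64)) * n) := by
    rw [← exp_add, exp_le_exp]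
    nlinarith [le_max_right τ (s * (1 - τ ^ 2 / 64)), Nat.cast_nonneg (α := ℝ) n]
  rw [Nat.cast_add] at h1
  have b1 : 2 * ((n + 1) * exp (2 * exp (-(8 / τ)) * n - K * -(8 / τ))) ≤
      2 * (2 + 1 / (τ / 2)) * exp (max τ (s * (1 - τ ^ 2 / 64)) * n) := by
    have := mul_le_mul (show (n : ℝ) + 1 ≤ _ from le_trans (by linarith) h4) h3 (exp_pos _).le
      (by positivity)
    have := mul_le_mul_of_nonneg_left h5 (show 0 ≤ 2 + 1 / (τ / 2) by positivity)
    nlinarith
  have b2 := mul_le_mul_of_nonneg_right h9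
    (show 0 ≤ 2 * (C * C) * exp (2 * s) * exp (s * (1 - τ ^ 2 / 32) * n) by positivity)
  have b3 := mul_le_mul_of_nonneg_left h10
    (show 0 ≤ (2 + 1 / (s * (τ ^ 2 / 64))) * (2 * (C * C) * exp (2 * s)) by positivity)
  nlinarith

lemma P.mono {s s' : ℝ} (h : P s) (hs : s ≤ s') : P s' := by
  obtain ⟨C, hC⟩ := h
  refine ⟨|C|, fun n => (hC n).trans (mul_le_mul (le_abs_self _) ?_ (exp_pos _).le (abs_nonneg _))⟩
  exact exp_le_exp.2 (mul_le_mul_of_nonneg_right hs (Nat.cast_nonneg _))

theorem P_all {τ : ℝ} (h0 : 0 < τ) : P τ := by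
  wlog h1 : τ ≤ 1
  · exact (this one_pos le_rfl).mono (not_le.1 h1).le
  have q0 : 0 < 1 - τ ^ 2 / 64 := by nlinarith
  have q1 : 1 - τ ^ 2 / 64 < 1 := by nlinarith
  have key : ∀ j : ℕ, P (max τ (3 * (1 - τ ^ 2 / 64) ^ j)) := by
    intro j
    induction j with
    | zero => exact P_three.mono (by simp)
    | succ j ih =>
      refine (P_step h0 (lt_max_of_lt_left h0) ih).mono (max_le (le_max_left _ _) ?_)
      rw [max_mul_of_nonneg _ _ q0.le, pow_succ _ j, ← mul_assoc]
      exact max_le_max (by nlinarith) le_rfl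
  obtain ⟨j, hj⟩ := exists_pow_lt_of_lt_one (show 0 < τ / 3 by positivity) q1
  exact (key j).mono (max_le le_rfl (by linarith))

end Pool.Agent.H.MP_0e9457_al
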