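import Pool.Agent.H.MP_0e9457_al.B

set_option autoImplicit false

namespace Pool.Agent.H.MP_0e9457_al

def Bl (r : ℕ) : Set (ℕ → ℕ) := {f | ∃ w : List L, w.length ≤ r ∧ ev w = f}

lemma Bl_sub (r : ℕ) : Bl r ⊆ B (3 * r) := by
  rintro _ ⟨w, h, rfl⟩
  exact mem_B.2 ⟨w, (wt_le w).trans (by omega), rfl⟩

lemma Bl_fin (r : ℕ) : (Bl r).Finite := (B (3 * r)).finite_toSet.subset (Bl_sub r)

lemma Bl_mono {r s : ℕ} (h : r ≤ s) : (Bl r).ncard ≤ (Bl s).ncard :=
  Set.ncard_le_ncard (fun _ ⟨w, h1, h2⟩ => ⟨w, h1.trans h, h2⟩) (Bl_fin s)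

lemma reach (m : ℕ) : ∃ w : List L, w.length ≤ m ∧ ev w 0 = m := by
  induction m with
  | zero => exact ⟨[], le_rfl, rfl⟩
  | succ m ih =>
    obtain ⟨w, h1, h2⟩ := ih
    rcases Nat.mod_two_eq_zero_or_one m with h | h
    · exact ⟨0 :: w, by simpa using h1, by simp [ev, h2, g, on, tb, h]⟩
    · exact ⟨3 :: w, by simpa using h1, by simp [ev, h2, g, on, tb, h]⟩

lemma Bl_lin (r : ℕ) : r + 1 ≤ (Bl r).ncard := by
  have : (Finset.range (r + 1) : Set ℕ) ⊆ (fun f : ℕ → ℕ => f 0) '' Bl r := fun m hm => by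
    obtain ⟨w, h1, h2⟩ := reach m
    exact ⟨_, ⟨w, by simp at hm; omega, rfl⟩, h2⟩
  have h := (Set.ncard_le_ncard this ((Bl_fin r).image _)).trans (Set.ncard_image_le (Bl_fin r))
  rwa [Set.ncard_coe_finset, Finset.card_range] at h

def sg (w : List L) : List L := w.flatMap fun l => ![[0, 1, 0], [2], [1], [3], []] l

def th (w : List L) : List L := w.map fun l => ![2, 4, 0, 0, 4] l

lemma sg_len (w : List L) : (sg w).length ≤ 3 * w.length := by
  induction w with
  | nil => simp [sg]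
  | cons l w ih =>
    have : (![[0, 1, 0], [2], [1], [3], []] l : List L).length ≤ 3 := by clear * -; revert l; decide
    simp only [sg, List.flatMap_cons, List.length_append, List.length_cons] at ih ⊢
    omega

lemma ev_sg (w : List L) (q : ℕ) : ev (sg w) (cons false q) = cons false (ev w q) ∧
    ev (sg w) (cons true q) = cons true (ev (th w) q) := by
  induction w with
  | nil => exact ⟨rfl, rfl⟩
  | cons l w ih =>
    simp only [sg, th, List.flatMap_cons, List.map_cons, ev_append] at ih ⊢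
    rw [ih.1, ih.2, ev_cons, ev_cons]
    fin_cases l <;> simp [rt, secs, root, so, ev, g_e]

def DD : List (List L) := [[], [0], [2], [0, 2], [2, 0], [0, 2, 0], [2, 0, 2], [0, 2, 0, 2]]

lemma rel (m : ℕ) : g 2 (g 0 (g 2 (g 0 m))) = g 0 (g 2 (g 0 (g 2 m))) := by
  rw [← cons_kp m]
  cases kp m <;> simp [g_cons, root, so, g_e]

lemma th_mem (w : List L) : ∃ u ∈ DD, ev u = ev (th w) := by
  induction w with
  | nil => exact ⟨[], by simp [DD], rfl⟩
  | cons l w ih =>
    obtain ⟨u, h1, h2⟩ := ih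
    have e : ∀ l' : L, ev (l' :: th w) = ev (l' :: u) := fun l' => by ext m; simp [ev, h2]
    have r2 : ∀ m, g 2 (g 0 (g 2 (g 0 (g 2 m)))) = g 0 (g 2 (g 0 m)) := fun m => by
      rw [rel, g_g]
    simp only [th, List.map_cons] at e ⊢
    rw [e]
    simp only [DD, List.mem_cons, List.not_mem_nil, or_false, exists_eq_or_imp,
      exists_eq_left] at h1 ⊢
    rcases h1 with rfl | rfl | rfl | rfl | rfl | rfl | rfl | rfl <;> fin_cases l <;>
      simp [funext_iff, ev, g_e, g_g, r2, rel]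

lemma Bl_sq (r : ℕ) : (Bl r).ncard * (Bl r).ncard ≤ 64 * (Bl (6 * r + 2)).ncard := by
  classical
  have hw : ∀ f : ℕ → ℕ, ∃ w : List L, f ∈ Bl r → w.length ≤ r ∧ ev w = f := fun f => by
    by_cases h : f ∈ Bl r
    · exact h.imp fun w hw _ => hw
    · exact ⟨[], fun h' => absurd h' h⟩
  choose W hW using hw
  let D : Finset (ℕ → ℕ) := (DD.map ev).toFinset
  have hD : D.card ≤ 8 := (List.toFinset_card_le _).trans (by simp [DD])
  have mD : ∀ w, ev (th w) ∈ D := fun w => by
    obtain ⟨u, h1, h2⟩ := th_mem w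
    exact List.mem_toFinset.2 (List.mem_map.2 ⟨u, h1, h2⟩)
  have key : ∀ u v q, ev (sg u ++ 0 :: (sg v ++ [0])) (cons false q) =
      cons false (ev u (ev (th v) q)) ∧ ev (sg u ++ 0 :: (sg v ++ [0])) (cons true q) =
      cons true (ev (th u) (ev v q)) := fun u v q => by
    simp [ev_append, ev, g_cons, root, so, g_e, ev_sg]
  have := Set.ncard_le_ncard_of_injOn (s := Bl r ×ˢ Bl r)
    (t := Bl (6 * r + 2) ×ˢ ((D : Set (ℕ → ℕ)) ×ˢ (D : Set (ℕ → ℕ))))
    (fun y => (ev (sg (W y.1) ++ 0 :: (sg (W y.2) ++ [0])), ev (th (W y.1)), ev (th (W y.2))))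
    (fun y hy => ⟨⟨_, by
      have := sg_len (W y.1)
      have := sg_len (W y.2)
      have := (hW _ hy.1).1
      have := (hW _ hy.2).1
      simp only [List.length_append, List.length_cons, List.length_nil]
      omega, rfl⟩, mD _, mD _⟩)
    (fun y hy z hz e => by
      simp only [Prod.mk.injEq] at e
      obtain ⟨e1, e2, e3⟩ := e
      refine Prod.ext ?_ ?_
      · rw [← (hW _ hy.1).2, ← (hW _ hz.1).2]
        ext q
        obtain ⟨q, rfl⟩ := (ev_bij (th (W y.2))).2 q
        have := congrFun e1 (cons false q)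
        rw [(key _ _ q).1, (key _ _ q).1, ← e3] at this
        rw [← cons_div false (ev _ _), this, cons_div]
      · rw [← (hW _ hy.2).2, ← (hW _ hz.2).2]
        ext q
        have := congrFun e1 (cons true q)
        rw [(key _ _ q).2, (key _ _ q).2, ← e2] at this
        apply (ev_bij (th (W y.1))).1
        rw [← cons_div true (ev _ _), this, cons_div])
    ((Bl_fin _).prod (D.finite_toSet.prod D.finite_toSet))
  rw [Set.ncard_prod, Set.ncard_prod, Set.ncard_prod, Set.ncard_coe_finset] at this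
  refine this.trans ?_
  rw [mul_comm]
  exact Nat.mul_le_mul_right _ (Nat.mul_le_mul hD hD)

lemma Q_pow (j : ℕ) : ∃ C : ℕ, ∀ r, r ^ (2 ^ j) ≤ C * (Bl r).ncard := by
  induction j with
  | zero => exact ⟨1, fun r => by have := Bl_lin r; rw [pow_zero, pow_one]; omega⟩
  | succ j ih =>
    obtain ⟨C, hC⟩ := ih
    refine ⟨14 ^ (2 ^ (j + 1)) + 12 ^ (2 ^ (j + 1)) * (C * C) * 64, fun r => ?_⟩
    rw [add_mul]
    rcases lt_or_ge r 14 with h | h
    · refine le_add_right ((Nat.pow_le_pow_left h.le _).trans (Nat.le_mul_of_pos_right _ ?_))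
      have := Bl_lin r; omega
    · refine le_add_left ?_
      have h1 := Nat.mul_le_mul (hC ((r - 2) / 6)) (hC ((r - 2) / 6))
      have h2 := (Bl_sq ((r - 2) / 6)).trans (Nat.mul_le_mul_left 64 (Bl_mono
        (show 6 * ((r - 2) / 6) + 2 ≤ r by omega)))
      calc r ^ 2 ^ (j + 1) ≤ (12 * ((r - 2) / 6)) ^ 2 ^ (j + 1) := Nat.pow_le_pow_left (by omega) _
        _ = 12 ^ 2 ^ (j + 1) * (((r - 2) / 6) ^ 2 ^ j * ((r - 2) / 6) ^ 2 ^ j) := by
          rw [mul_pow, ← pow_add, pow_succ 2 j, mul_two]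
        _ ≤ 12 ^ 2 ^ (j + 1) * ((C * C) * (64 * (Bl r).ncard)) := by
          refine Nat.mul_le_mul_left _ (h1.trans ?_)
          rw [mul_mul_mul_comm]
          exact Nat.mul_le_mul_left _ h2
        _ = _ := by ring

open Filter Topology

theorem low (d : ℕ) : Tendsto (fun r : ℕ => ((Bl r).ncard : ℝ) / r ^ d) atTop atTop := by
  obtain ⟨C, hC⟩ := Q_pow d
  refine tendsto_atTop_mono' _ ?_ ((tendsto_natCast_atTop_atTop (R := ℝ)).atTop_div_const
    (show (0 : ℝ) < C + 1 by positivity))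
  filter_upwards [eventually_gt_atTop 0] with r hr
  have h1 : r ^ (d + 1) ≤ (C + 1) * (Bl r).ncard :=
    (Nat.pow_le_pow_right hr (Nat.lt_two_pow_self)).trans ((hC r).trans
      (Nat.mul_le_mul_right _ (Nat.le_succ C)))
  rw [div_le_div_iff₀ (by positivity) (by positivity), mul_comm, mul_comm ((Bl r).ncard : ℝ)]
  exact_mod_cast h1

theorem upp {c : ℝ} (hc : 0 < c) :
    Tendsto (fun r : ℕ => ((Bl r).ncard : ℝ) / Real.exp (c * r)) atTop (𝓝 0) := by
  obtain ⟨C, hC⟩ := P_all (show 0 < c / 6 by positivity)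
  have h1 : Tendsto (fun r : ℕ => C * Real.exp (-(c / 2 * r))) atTop (𝓝 (C * 0)) :=
    (Real.tendsto_exp_neg_atTop_nhds_zero.comp
      ((tendsto_natCast_atTop_atTop (R := ℝ)).const_mul_atTop (half_pos hc))).const_mul C
  rw [mul_zero] at h1
  refine squeeze_zero (fun r => by positivity) (fun r => ?_) h1
  have h2 := Set.ncard_le_ncard (Bl_sub r) (B (3 * r)).finite_toSet
  rw [Set.ncard_coe_finset] at h2
  rw [div_le_iff₀ (Real.exp_pos _), mul_assoc, ← Real.exp_add]
  refine ((Nat.cast_le.2 h2).trans (hC _)).trans (le_of_eq ?_)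
  push_cast
  ring_nf

end Pool.Agent.H.MP_0e9457_al
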