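import Mathlib

set_option autoImplicit false

namespace Pool.Agent.H.MP_0e9457_al

/-- the Morse substitution 0 -> 01, 1 -> 10 on words -/
def sub (w : List Bool) : List Bool := w.flatMap fun a => [a, !a]

/-- the Morse subshift -/
def X : Set (ℤ → Bool) := {x | ∀ (i : ℤ) (n : ℕ), ∃ (k : ℕ) (a : Bool), 1 ≤ k ∧
  (List.range n).map (fun j : ℕ => x (i + j)) <:+: sub^[k] [a]}

/-- membership in the topological full group of the left shift -/
def IsFull (f : X ≃ₜ X) : Prop :=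
  ∃ n : X → ℤ, Continuous n ∧ ∀ (x : X) (i : ℤ), (f x).1 i = x.1 (i + n x)

/-- word metric ball -/
def ball {G : Type} [Group G] (S : Finset G) (r : ℕ) : Set G :=
  {f | ∃ l : List G, l.length ≤ r ∧ (∀ s ∈ l, s ∈ S ∨ s⁻¹ ∈ S) ∧ l.prod = f}

end Pool.Agent.H.MP_0e9457_al
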