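import Pool.Agent.H.MP_0e9457_al.C
import Pool.Agent.H.MP_0e9457_al.Defs

set_option autoImplicit false

namespace Pool.Agent.H.MP_0e9457_al

lemma sub_range (a : Bool) (N : ℕ) : sub ((List.range N).map fun j => xor a (t j)) =
    (List.range (2 * N)).map fun j => xor a (t j) := by
  induction N with
  | zero => rfl
  | succ N ih =>
    simp only [sub] at ih ⊢
    rw [show 2 * (N + 1) = 2 * N + 1 + 1 by ring]
    simp [List.range_succ, ih, t_even, t_odd]

lemma sub_iter (a : Bool) (k : ℕ) : sub^[k] [a] = (List.range (2 ^ k)).map fun j => xor a (t j) := by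
  induction k with
  | zero => simp [t_zero]
  | succ k ih => rw [Function.iterate_succ_apply', ih, sub_range, pow_succ']

lemma mem_X {x : ℤ → Bool} : x ∈ X ↔
    ∀ (i : ℤ) (n : ℕ), ∃ (a : Bool) (m : ℕ), ∀ j < n, x (i + j) = xor a (t (m + j)) := by
  refine forall_congr' fun i => forall_congr' fun n => ⟨?_, ?_⟩
  · rintro ⟨k, a, -, s, r, e⟩
    refine ⟨a, s.length, fun j hj => ?_⟩
    rw [sub_iter] at e
    have h1 := congrArg List.length e
    simp only [List.length_append, List.length_map, List.length_range] at h1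
    have h2 := congrArg (·[s.length + j]?) e
    simp only [List.append_assoc, List.getElem?_append_right (Nat.le_add_right _ _),
      Nat.add_sub_cancel_left] at h2
    rw [List.getElem?_append_left (by simpa using hj)] at h2
    simpa [List.getElem?_range hj, List.getElem?_range (show s.length + j < 2 ^ k by omega)] using h2
  · rintro ⟨a, m, h⟩
    have h1 : m + n ≤ 2 ^ (m + n + 1) := (Nat.lt_two_pow_self).le.trans
      (Nat.pow_le_pow_right two_pos (Nat.le_succ _))
    obtain ⟨c, hc⟩ := Nat.exists_eq_add_of_le h1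
    refine ⟨m + n + 1, a, by omega, (List.range m).map fun j => xor a (t j),
      ((List.range c).map (m + n + ·)).map fun j => xor a (t j), ?_⟩
    rw [sub_iter, hc, List.range_add, List.range_add, List.map_append, List.map_append]
    congr 2
    rw [List.map_map]
    exact List.map_congr_left fun j hj => h j (List.mem_range.1 hj)

def sh (n : ℤ) (x : ℤ → Bool) : ℤ → Bool := fun i => x (i + n)

lemma sh_mem {x : ℤ → Bool} (h : x ∈ X) (n : ℤ) : sh n x ∈ X :=
  mem_X.2 fun i k => by simpa [sh, add_right_comm] using mem_X.1 h (i + n) k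

def Win (x : ℤ → Bool) (a : Bool) (m : ℕ) (R : ℤ) : Prop :=
  R ≤ m ∧ ∀ j : ℤ, |j| ≤ R → x j = xor a (t (m + j).toNat)

lemma exists_win {x : ℤ → Bool} (h : x ∈ X) (R : ℕ) : ∃ a m, Win x a m R := by
  obtain ⟨a, m, h1⟩ := mem_X.1 h (-R) (2 * R + 1)
  refine ⟨a, m + R, by omega, fun j hj => ?_⟩
  rw [abs_le] at hj
  have := h1 (j + R).toNat (by omega)
  rw [show -(R : ℤ) + (j + R).toNat = j by omega] at this
  rw [this]
  congr 2
  omega

def od (a b c : Bool) : Bool := !(!b && (a || c))

def D5 (l : L) (y : Bool × Bool × Bool × Bool × Bool) : ℤ :=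
  if tb l (od (y.2.1 == y.2.2.1) (y.2.2.1 == y.2.2.2.1) (y.2.2.2.1 == y.2.2.2.2))
    (y.2.2.1 == y.2.2.2.1) then 1
  else if tb l (od (y.1 == y.2.1) (y.2.1 == y.2.2.1) (y.2.2.1 == y.2.2.2.1))
    (y.2.1 == y.2.2.1) then -1 else 0

def D (l : L) (x : ℤ → Bool) : ℤ := D5 l (x (-2), x (-1), x 0, x 1, x 2)

lemma od_p (m : ℕ) : od (p m) (p (m + 1)) (p (m + 2)) = decide ((m + 1) % 2 = 1) := by
  obtain ⟨k, rfl | rfl⟩ := m.even_or_odd'
  · rw [show 2 * k + 2 = 2 * (k + 1) by ring, p_even, p_even]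
    simp [od]
  · rw [show 2 * k + 1 + 2 = 2 * (k + 1) + 1 by ring, show 2 * k + 1 + 1 = 2 * (k + 1) by ring,
      p_even, p_odd, p_odd]
    obtain ⟨j, rfl | rfl⟩ := k.even_or_odd'
    · simp [od, p_even]
    · rw [show 2 * j + 1 + 1 = 2 * (j + 1) by ring]
      simp [od, p_even]

lemma D_win {x : ℤ → Bool} {a : Bool} {m : ℕ} {R : ℤ} (h : Win x a m R) (hR : 2 ≤ R) (l : L) :
    (g l m : ℤ) = m + D l x := by
  obtain ⟨m, rfl⟩ : ∃ k, m = k + 2 := ⟨m - 2, by have := h.1; omega⟩
  have e : ∀ a b c : Bool, (xor a b == xor a c) = (b == c) := by decide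
  have h0 := h.2 (-2) (by simpa using hR)
  have h1 := h.2 (-1) (by simp; omega)
  have h2 := h.2 0 (by simp; omega)
  have h3 := h.2 1 (by simp; omega)
  have h4 := h.2 2 (by simpa using hR)
  rw [show (((m + 2 : ℕ) : ℤ) + -2).toNat = m by omega] at h0
  rw [show (((m + 2 : ℕ) : ℤ) + -1).toNat = m + 1 by omega] at h1
  rw [show (((m + 2 : ℕ) : ℤ) + 0).toNat = m + 1 + 1 by omega] at h2
  rw [show (((m + 2 : ℕ) : ℤ) + 1).toNat = m + 2 + 1 by omega] at h3
  rw [show (((m + 2 : ℕ) : ℤ) + 2).toNat = m + 1 + 2 + 1 by omega] at h4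
  have o1 := od_p m
  have o2 := od_p (m + 1)
  simp only [p] at o1 o2
  simp only [D, D5, h0, h1, h2, h3, h4, e, o1, o2, g, on, p, show m + 2 - 1 = m + 1 by omega]
  simp only [ne_eq, Nat.add_eq_zero_iff, OfNat.ofNat_ne_zero, and_false, not_false_eq_true,
    true_and]
  split_ifs <;> push_cast <;> ring

lemma D_abs (l : L) (x : ℤ → Bool) : |D l x| ≤ 1 := by
  unfold D D5; split_ifs <;> simp

def cc : List L → (ℤ → Bool) → ℤ
  | [], _ => 0
  | l :: w, x => cc w x + D l (sh (cc w x) x)

lemma cc_win {x : ℤ → Bool} {a : Bool} {m : ℕ} {R : ℤ} (h : Win x a m R) (w : List L)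
    (hR : w.length + 2 ≤ R) : (ev w m : ℤ) = m + cc w x ∧ |cc w x| ≤ w.length := by
  induction w with
  | nil => simp [ev, cc]
  | cons l w ih =>
    simp only [List.length_cons] at hR ⊢
    obtain ⟨h1, h2⟩ := ih (by omega)
    have h3 := D_abs l (sh (cc w x) x)
    have h4 := h.1
    rw [abs_le] at h2 h3
    have := D_win (x := sh (cc w x) x) (a := a) (m := ev w m) (R := 2)
      ⟨by omega, fun j hj => by
        rw [abs_le] at hj
        rw [sh, h.2 _ (abs_le.2 (by omega)), h1]
        congr 3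
        ring⟩ le_rfl l
    rw [ev, cc, this, h1, abs_le]
    omega

lemma cc_eq {u v : List L} (e : ev u = ev v) {x : ℤ → Bool} (h : x ∈ X) : cc u x = cc v x := by
  obtain ⟨a, m, h1⟩ := exists_win h (u.length + v.length + 2)
  have h2 := (cc_win h1 u (by push_cast; omega)).1
  have h3 := (cc_win h1 v (by push_cast; omega)).1
  rw [e] at h2
  omega

lemma cont_D (l : L) : Continuous (D l) :=
  (continuous_of_discreteTopology (f := D5 l)).comp (by fun_prop)

lemma cont_act (l : L) : Continuous fun x : X => (⟨sh (D l x) x, sh_mem x.2 _⟩ : X) := by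
  refine Continuous.subtype_mk (continuous_pi fun i => ?_) _
  have h1 : Continuous fun y : (ℤ → Bool) × ℤ => y.1 y.2 :=
    continuous_prod_of_discrete_right.2 fun b => continuous_apply b
  exact h1.comp (continuous_subtype_val.prodMk
    (continuous_const.add ((cont_D l).comp continuous_subtype_val)))

lemma sh_sh (a b : ℤ) (x : ℤ → Bool) : sh a (sh b x) = sh (b + a) x := by
  ext i; simp only [sh]; congr 1; ring

lemma act_act (l : L) (x : X) : sh (D l (sh (D l x) x)) (sh (D l x) x) = x := by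
  have := cc_eq (u := [l, l]) (v := []) (by ext m; simp [ev, g_g]) x.2
  have e : sh 0 x.1 = x.1 := by ext i; simp [sh]
  simp only [cc, zero_add, e] at this
  rw [sh_sh, this, e]

def gen (l : L) : X ≃ₜ X where
  toFun x := ⟨sh (D l x) x, sh_mem x.2 _⟩
  invFun x := ⟨sh (D l x) x, sh_mem x.2 _⟩
  left_inv x := Subtype.ext (act_act l x)
  right_inv x := Subtype.ext (act_act l x)
  continuous_toFun := cont_act l
  continuous_invFun := cont_act l

lemma gen_full (l : L) : IsFull (gen l) :=
  ⟨fun x => D l x, (cont_D l).comp continuous_subtype_val, fun _ _ => rfl⟩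

lemma evX (w : List L) (x : X) : ((w.map gen).prod x).1 = sh (cc w x) x := by
  induction w with
  | nil => ext i; simp [sh, cc]
  | cons l w ih =>
    rw [List.map_cons, List.prod_cons, cc, ← sh_sh, ← ih]
    rfl

lemma exists_pt : ∃ x ∈ X, ∀ i : ℕ, x i = t i := by
  classical
  let U := Filter.hyperfilter ℕ
  let x : ℤ → Bool := fun i => decide (∀ᶠ K : ℕ in U, t (3 * 2 ^ K + i).toNat = true)
  have hx : ∀ i, ∀ᶠ K : ℕ in U, x i = t (3 * 2 ^ K + i).toNat := fun i => by
    by_cases h : ∀ᶠ K : ℕ in U, t (3 * 2 ^ K + i).toNat = true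
    · exact h.mono fun K hK => by simp [x, h, hK]
    · exact (Ultrafilter.eventually_not.2 h).mono fun K hK => by simp [x, h, hK]
  have big : ∀ n : ℕ, ∀ᶠ K : ℕ in U, n < 2 ^ K := fun n =>
    Filter.hyperfilter_le_cofinite (by
      rw [Nat.cofinite_eq_atTop]
      filter_upwards [Filter.eventually_ge_atTop n] with K hK
      exact hK.trans_lt Nat.lt_two_pow_self)
  refine ⟨x, mem_X.2 fun i n => ?_, fun i => ?_⟩
  · obtain ⟨K, h1, h2⟩ := ((big i.natAbs).and ((Filter.eventually_all_finset (Finset.range n)).2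
      fun j _ => hx (i + j))).exists
    refine ⟨false, (3 * 2 ^ K + i).toNat, fun j hj => ?_⟩
    rw [h2 j (Finset.mem_range.2 hj), Bool.false_xor]
    congr 1
    have : ((2 ^ K : ℕ) : ℤ) = 2 ^ K := by push_cast; rfl
    omega
  · obtain ⟨K, h1, h2⟩ := ((big i).and (hx i)).exists
    have : ((2 ^ K : ℕ) : ℤ) = 2 ^ K := by push_cast; rfl
    rw [h2, show (3 * 2 ^ K + (i : ℤ)).toNat = 3 * 2 ^ K + i by omega, t_add K 3 i h1,
      t_odd 1, t_odd 0, t_zero]
    simp

lemma aper {a b : ℕ} (h : ∀ i, t (i + a) = t (i + b)) : a = b := by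
  wlog hab : a < b generalizing a b
  · rcases (not_lt.1 hab).eq_or_lt with e | e
    · exact e.symm
    · exact (this (fun i => (h i).symm) e).symm
  exfalso
  have h0 : b < 2 ^ b := Nat.lt_two_pow_self
  have t1 : t 1 = true := by rw [t_odd 0, t_zero]; rfl
  have h1 := h (2 ^ b - b)
  have h2 := h (2 * 2 ^ b - b)
  have h3 := t_add b 1 (2 ^ b - b + a) (by omega)
  have h4 := t_add b 1 0 (by omega)
  have h5 := t_even (2 ^ b)
  rw [show 2 ^ b - b + b = 2 ^ b by omega] at h1
  rw [show 2 * 2 ^ b - b + b = 2 * 2 ^ b by omega,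
    show 2 * 2 ^ b - b + a = 1 * 2 ^ b + (2 ^ b - b + a) by omega, h3, h5, h1, t1] at h2
  simp at h2

lemma ev_rev (v : List L) (m : ℕ) : ev v.reverse (ev v m) = m := by
  induction v generalizing m with
  | nil => rfl
  | cons l v ih => simp [ev_append, ev, g_g, ih]

lemma evX_iff (u v : List L) : (u.map gen).prod = (v.map gen).prod ↔ ev u = ev v := by
  refine ⟨fun e => ?_, fun e => Homeomorph.ext fun x => Subtype.ext (by
    rw [evX, evX, cc_eq e x.2])⟩
  obtain ⟨x, hx, h⟩ := exists_pt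
  have h' : ∀ j : ℤ, 0 ≤ j → x j = t j.toNat := fun j hj => by rw [← h, Int.toNat_of_nonneg hj]
  have key := ev_far (u.length + v.length + 2) (v.reverse ++ u) fun m hm => by
    have W : Win (sh m x) false m m := ⟨le_rfl, fun j hj => by
      rw [abs_le] at hj
      rw [sh, h' _ (by omega), add_comm, Bool.false_xor]⟩
    have h1 := (cc_win W u (by omega)).1
    have h2 := (cc_win W v (by omega)).1
    have h3 := evX u ⟨_, sh_mem hx m⟩
    rw [e, evX] at h3
    simp only [sh_sh, ← h1, ← h2] at h3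
    rw [ev_append, ← aper (a := ev v m) (b := ev u m) fun i => by
      simpa only [sh, ← Nat.cast_add, h] using congrFun h3 i, ev_rev]
  ext m
  apply (ev_bij v.reverse).1
  rw [← ev_append, key, ev_rev]

end Pool.Agent.H.MP_0e9457_al
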